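import Mathlib

namespace Pool.Agent.Results.MP_43520b_al.Interval

open Pointwise

/-- x divides y: y lies in M x M. -/
def Dv {M : Type*} [Monoid M] (x y : M) : Prop := ∃ u v : M, y = u * x * v

/-- Irreducible elements. -/
def Irr {M : Type*} [Monoid M] (a : M) : Prop :=
  ¬ Dv a 1 ∧ ¬ ∃ b c : M, a = b * c ∧ (Dv b a ∧ ¬ Dv a b) ∧ (Dv c a ∧ ¬ Dv a c) ∧
    ¬ Dv b 1 ∧ ¬ Dv c 1

/-- The set of lengths of factorizations of x into irreducibles. -/
def Len {M : Type*} [Monoid M] (x : M) : Set ℕ :=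
  {m | ∃ l : List M, (∀ a ∈ l, Irr a) ∧ l.prod = x ∧ l.length = m}

/-- The union of the length sets containing k. -/
def U (M : Type*) [Monoid M] (k : ℕ) : Set ℕ := {m | ∃ x : M, k ∈ Len x ∧ m ∈ Len x}

/-- The reduced finitary power monoid. -/
def PF (H : Type*) [Monoid H] : Submonoid (Set H) where
  carrier := {X | X.Finite ∧ (1 : H) ∈ X}
  one_mem' := ⟨Set.finite_one, Set.one_mem_one⟩
  mul_mem' := fun h h' => ⟨h.1.mul h'.1, ⟨1, h.2, 1, h'.2, mul_one 1⟩⟩

section mon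
variable {H : Type*} [Monoid H]

theorem sub_l (X Y : PF H) : X.1 ⊆ (X * Y).1 := fun x hx => ⟨x, hx, 1, Y.2.2, mul_one x⟩
theorem sub_r (X Y : PF H) : Y.1 ⊆ (X * Y).1 := fun x hx => ⟨1, X.2.2, x, hx, one_mul x⟩

theorem Dv.sub {X Y : PF H} (h : Dv X Y) : X.1 ⊆ Y.1 := by
  obtain ⟨u, v, rfl⟩ := h
  exact (sub_r u X).trans (sub_l _ v)

theorem one_sub (X : PF H) : (1 : PF H).1 ⊆ X.1 := by
  rintro x hx; rw [Set.mem_one.1 hx]; exact X.2.2

theorem dv_one {X : PF H} : Dv X 1 ↔ X = 1 :=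
  ⟨fun h => Subtype.ext (h.sub.antisymm (one_sub X)), fun h => ⟨1, 1, by simp [h]⟩⟩

theorem irr_iff {A : PF H} : Irr A ↔ A ≠ 1 ∧ ∀ B C : PF H, A = B * C → B = A ∨ C = A := by
  unfold Irr
  simp only [dv_one]
  refine and_congr_right fun _ => ⟨fun h B C hA => ?_, ?_⟩
  · by_contra hc
    push Not at hc
    have h1 : Dv B A := ⟨1, C, by simp [hA]⟩
    have h2 : Dv C A := ⟨B, 1, by simp [hA]⟩
    refine h ⟨B, C, hA, ⟨h1, fun h' => hc.1 (Subtype.ext (h1.sub.antisymm h'.sub))⟩,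
      ⟨h2, fun h' => hc.2 (Subtype.ext (h2.sub.antisymm h'.sub))⟩, ?_, ?_⟩
    · rintro rfl; exact hc.2 (by simp [hA])
    · rintro rfl; exact hc.1 (by simp [hA])
  · rintro h ⟨B, C, hA, h1, h2, -⟩
    rcases h B C hA with rfl | rfl
    · exact h1.2 h1.1
    · exact h2.2 h2.1

theorem Len.one {A : PF H} (h : Irr A) : 1 ∈ Len A := ⟨[A], by simpa using h, by simp, rfl⟩

theorem Len.mul {A B : PF H} {i j : ℕ} (h : i ∈ Len A) (h' : j ∈ Len B) : i + j ∈ Len (A * B) := by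
  obtain ⟨l, h1, rfl, rfl⟩ := h
  obtain ⟨l', h1', rfl, rfl⟩ := h'
  refine ⟨l ++ l', fun a ha => ?_, by simp, by simp⟩
  rcases List.mem_append.1 ha with h | h
  exacts [h1 a h, h1' a h]

theorem Len.pow {A : PF H} (h : Irr A) (t : ℕ) : t ∈ Len (A ^ t) := by
  induction t with
  | zero => exact ⟨[], by simp, by simp, rfl⟩
  | succ t ih => rw [pow_succ]; exact Len.mul ih (Len.one h)

theorem pos_of_mem {k m : ℕ} (hk : 1 ≤ k) (h : m ∈ U (PF H) k) : 1 ≤ m := by
  obtain ⟨X, ⟨l, h1, h2, h3⟩, ⟨l', -, h2', h3'⟩⟩ := h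
  by_contra hm
  have : l' = [] := List.length_eq_zero_iff.1 (by omega)
  subst this
  cases l with
  | nil => simp at h3; omega
  | cons a l =>
    have ha := (irr_iff.1 (h1 a (by simp))).1
    apply ha
    have := sub_l a l.prod
    rw [← List.prod_cons, h2, ← h2'] at this
    exact Subtype.ext (this.antisymm (one_sub a))

theorem all_of_one {X : PF H} {m : ℕ} (h1 : 1 ∈ Len X) (hm : m ∈ Len X) (h2 : 2 ≤ m) (j : ℕ)
    (hj : 1 ≤ j) : j ∈ Len X := by
  obtain ⟨l, hl, hX, hlen⟩ := h1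
  obtain ⟨a, rfl⟩ := List.length_eq_one_iff.1 hlen
  have hI : Irr X := by simpa [← hX] using hl
  obtain ⟨l, hl, hX, rfl⟩ := hm
  obtain ⟨t, rfl⟩ : ∃ t, j = t + 1 := ⟨j - 1, by omega⟩
  match l, hl, hX, h2 with
  | a :: b :: l, hl, hX, _ =>
    rw [List.prod_cons] at hX
    rcases (irr_iff.1 hI).2 _ _ hX.symm with h | h
    · have hb : X * b = X := by
        refine Subtype.ext (Set.Subset.antisymm ?_ (sub_l X b))
        have := sub_l (X * b) l.prod
        rwa [mul_assoc, ← List.prod_cons, ← h, hX, ← h, h] at this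
      have : ∀ t : ℕ, X * b ^ t = X := by
        intro t; induction t with
        | zero => simp
        | succ t ih => rw [pow_succ, ← mul_assoc, ih, hb]
      rw [← this t, add_comm]
      exact Len.mul (Len.one hI) (Len.pow (hl b (by simp)) t)
    · rw [h] at hX
      have : ∀ t : ℕ, a ^ t * X = X := by
        intro t; induction t with
        | zero => simp
        | succ t ih => rw [pow_succ, mul_assoc, hX, ih]
      rw [← this t]
      exact Len.mul (Len.pow (hl a (by simp)) t) (Len.one hI)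

theorem conn_one : (U (PF H) 1).OrdConnected := by
  refine ⟨fun a ha b hb c hc => ?_⟩
  have ha1 := pos_of_mem le_rfl ha
  obtain ⟨X, h1, hb⟩ := hb
  by_cases h : 2 ≤ b
  · exact ⟨X, h1, all_of_one h1 hb h c (ha1.trans hc.1)⟩
  · obtain rfl : c = b := by have := hc.1; have := hc.2; omega
    exact ⟨X, h1, hb⟩

theorem conn_of_three {k : ℕ} (hk : 2 ≤ k) (h : ∀ j, 3 ≤ j → j ∈ U (PF H) k) :
    (U (PF H) k).OrdConnected := by
  refine ⟨fun a ha b hb c hc => ?_⟩
  have ha1 := pos_of_mem (by omega) ha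
  by_cases h3 : 3 ≤ c
  · exact h c h3
  by_cases hac : a = c
  · exact hac ▸ ha
  have := hc.1
  obtain rfl : a = 1 := by omega
  obtain ⟨X, h1, h2⟩ := ha
  exact ⟨X, h1, all_of_one h2 h1 hk c this⟩

/-- powers of x with exponents in a bounded set -/
def pw (x : H) (n : ℕ) (p : ℕ → Prop) (h0 : p 0) : PF H :=
  ⟨{g | ∃ i, i ≤ n ∧ p i ∧ g = x ^ i},
    ((Set.finite_Iic n).image (x ^ ·)).subset (by rintro _ ⟨i, hi, -, rfl⟩; exact ⟨i, hi, rfl⟩),
    ⟨0, Nat.zero_le _, h0, (pow_zero x).symm⟩⟩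

def iv (x : H) (n : ℕ) : PF H := pw x n (fun _ => True) trivial

theorem pw_mul (x : H) (n m : ℕ) (p q : ℕ → Prop) (h0 : p 0) (h0' : q 0)
    (h : ∀ s ≤ n + m, ∃ i j, i ≤ n ∧ p i ∧ j ≤ m ∧ q j ∧ s = i + j) :
    pw x n p h0 * pw x m q h0' = iv x (n + m) := by
  refine Subtype.ext (Set.ext fun g => ⟨?_, ?_⟩)
  · rintro ⟨_, ⟨i, hi, -, rfl⟩, _, ⟨j, hj, -, rfl⟩, rfl⟩
    exact ⟨i + j, by omega, trivial, (pow_add _ _ _).symm⟩
  · rintro ⟨s, hs, -, rfl⟩
    obtain ⟨i, j, hi, hp, hj, hq, rfl⟩ := h s hs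
    exact ⟨_, ⟨i, hi, hp, rfl⟩, _, ⟨j, hj, hq, rfl⟩, (pow_add _ _ _).symm⟩

theorem pw_irr (x : H) (n : ℕ) (p : ℕ → Prop) (h0 : p 0) (hn : 1 ≤ n) (hpn : p n)
    (hinj : ∀ i j, i ≤ 2 * n → j ≤ n → x ^ i = x ^ j → i = j)
    (hat : (p 1 ∧ ∀ i, p i → p (i + 1) → i + 1 ≤ n → i = 0) ∨
      (p (n - 1) ∧ ∀ i, p i → p (i + 1) → i + 1 ≤ n → i + 1 = n)) : Irr (pw x n p h0) := by
  refine irr_iff.2 ⟨fun h => ?_, fun B C hA => ?_⟩
  · have : x ^ n ∈ (pw x n p h0).1 := ⟨n, le_rfl, hpn, rfl⟩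
    rw [h] at this
    have := hinj n 0 (by omega) (by omega) (by rw [Set.mem_one.1 this, pow_zero])
    omega
  have hB : ∀ g ∈ B.1, ∃ i, i ≤ n ∧ g = x ^ i := fun g hg => by
    obtain ⟨i, hi, -, h⟩ := (hA ▸ sub_l B C :) hg; exact ⟨i, hi, h⟩
  have hC : ∀ g ∈ C.1, ∃ i, i ≤ n ∧ g = x ^ i := fun g hg => by
    obtain ⟨i, hi, -, h⟩ := (hA ▸ sub_r B C :) hg; exact ⟨i, hi, h⟩
  have hs : ∀ i j, i ≤ n → j ≤ n → x ^ i ∈ B.1 → x ^ j ∈ C.1 → i + j ≤ n ∧ p (i + j) := by
    intro i j hi hj h1 h2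
    have : x ^ (i + j) ∈ (pw x n p h0).1 := by rw [hA]; exact ⟨_, h1, _, h2, (pow_add _ _ _).symm⟩
    obtain ⟨s, hs, hp, he⟩ := this
    rw [hinj _ _ (by omega) hs he]; exact ⟨hs, hp⟩
  have hd : ∀ s, s ≤ n → p s → ∃ i j, i ≤ n ∧ j ≤ n ∧ x ^ i ∈ B.1 ∧ x ^ j ∈ C.1 ∧ i + j = s := by
    intro s hs hp
    have : x ^ s ∈ (B * C).1 := by rw [← hA]; exact ⟨s, hs, hp, rfl⟩
    obtain ⟨b, hb, c, hc, he⟩ := this
    obtain ⟨i, hi, rfl⟩ := hB b hb
    obtain ⟨j, hj, rfl⟩ := hC c hc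
    exact ⟨i, j, hi, hj, hb, hc, hinj _ _ (by omega) hs (by rw [pow_add]; exact he)⟩
  have hB0 : x ^ 0 ∈ B.1 := by rw [pow_zero]; exact B.2.2
  have hC0 : x ^ 0 ∈ C.1 := by rw [pow_zero]; exact C.2.2
  have fB : (∀ i, i ≤ n → x ^ i ∈ B.1 → i = 0) → C = pw x n p h0 := fun h => by
    have : B = 1 := Subtype.ext (Set.Subset.antisymm (fun g hg => by
      obtain ⟨i, hi, rfl⟩ := hB g hg
      rw [h i hi hg, pow_zero]; exact Set.one_mem_one) (one_sub B))
    rw [hA, this, one_mul]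
  have fC : (∀ i, i ≤ n → x ^ i ∈ C.1 → i = 0) → B = pw x n p h0 := fun h => by
    have : C = 1 := Subtype.ext (Set.Subset.antisymm (fun g hg => by
      obtain ⟨i, hi, rfl⟩ := hC g hg
      rw [h i hi hg, pow_zero]; exact Set.one_mem_one) (one_sub C))
    rw [hA, this, mul_one]
  rcases hat with ⟨h1, h⟩ | ⟨h1, h⟩
  · obtain ⟨i, j, hi, hj, hb, hc, he⟩ := hd 1 hn h1
    rcases Nat.eq_zero_or_pos i with rfl | hi0
    · obtain rfl : j = 1 := by omega
      refine Or.inr (fB fun i hi hb => ?_)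
      exact h i (hs i 0 hi (by omega) hb hC0).2 (hs i 1 hi hn hb hc).2 (hs i 1 hi hn hb hc).1
    · obtain rfl : i = 1 := by omega
      refine Or.inl (fC fun j hj hc => ?_)
      have h2 := hs 1 j hn hj hb hc
      have h3 := hs 0 j (by omega) hj hB0 hc
      rw [add_comm] at h2 h3
      exact h j h3.2 h2.2 h2.1
  · obtain ⟨i, j, hi, hj, hb, hc, he⟩ := hd n le_rfl hpn
    obtain ⟨i', j', hi', hj', hb', hc', he'⟩ := hd (n - 1) (by omega) h1
    have e1 := (hs i j' hi hj' hb hc').1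
    have e2 := (hs i' j hi' hj hb' hc).1
    by_cases hii : i = i' + 1
    · subst hii
      refine Or.inl (fC fun t ht hc => ?_)
      have h2 := hs _ 0 hi (by omega) hb hC0
      have h3 := h i' (hs _ 0 hi' (by omega) hb' hC0).2 h2.2 h2.1
      have := (hs _ t hi ht hb hc).1
      omega
    · obtain rfl : j = j' + 1 := by omega
      refine Or.inr (fB fun t ht hb => ?_)
      have h2 := hs 0 _ (by omega) hj hB0 hc
      have h4 := hs 0 _ (by omega) hj' hB0 hc'
      rw [zero_add] at h2 h4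
      have h3 := h j' h4.2 h2.2 h2.1
      have := (hs t _ ht hj hb hc).1
      omega

def pr (x : H) : PF H := ⟨{1, x}, Set.toFinite _, Or.inl rfl⟩

theorem pr_irr {x : H} (hx : x ≠ 1) : Irr (pr x) := by
  refine irr_iff.2 ⟨fun h => hx ?_, fun B C hA => ?_⟩
  · have : x ∈ (pr x).1 := Or.inr rfl
    rw [h] at this; exact Set.mem_one.1 this
  by_cases hB : x ∈ B.1
  · refine Or.inl (Subtype.ext (Set.Subset.antisymm (hA ▸ sub_l B C) ?_))
    rintro _ (rfl | rfl); exacts [B.2.2, hB]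
  · have : B = 1 := Subtype.ext (Set.Subset.antisymm (fun g hg => by
      rcases (hA ▸ sub_l B C :) hg with rfl | rfl
      exacts [Set.one_mem_one, absurd hg hB]) (one_sub B))
    exact Or.inr (by rw [hA, this, one_mul])

theorem pr_eq (x : H) (n : ℕ) : pr (x ^ n) = pw x n (fun i => i = 0 ∨ i = n) (Or.inl rfl) := by
  refine Subtype.ext (Set.ext fun g => ⟨?_, ?_⟩)
  · rintro (rfl | rfl)
    exacts [⟨0, by omega, Or.inl rfl, (pow_zero x).symm⟩, ⟨n, le_rfl, Or.inr rfl, rfl⟩]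
  · rintro ⟨i, -, rfl | rfl, rfl⟩
    exacts [Or.inl (pow_zero x), Or.inr rfl]

theorem len_iv {x : H} (hx : x ≠ 1) {n l : ℕ} (h : l ∈ Len (iv x n)) (t : ℕ) :
    l + t ∈ Len (iv x (n + t)) := by
  induction t with
  | zero => exact h
  | succ t ih =>
    have := Len.mul ih (Len.one (pr_irr hx))
    rw [← pow_one x, pr_eq, pow_one, iv, pw_mul] at this
    · exact this
    · intro s hs
      by_cases h : s ≤ n + t
      · exact ⟨s, 0, h, trivial, by omega, Or.inl rfl, rfl⟩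
      · exact ⟨n + t, 1, le_rfl, trivial, le_rfl, Or.inr rfl, by omega⟩

theorem len_iv2 {x : H} (hx : x ^ 2 ≠ 1) {n l : ℕ} (hn : 1 ≤ n) (h : l ∈ Len (iv x n)) :
    l + 1 ∈ Len (iv x (n + 2)) := by
  have := Len.mul h (Len.one (pr_irr hx))
  rw [pr_eq, iv, pw_mul] at this
  · exact this
  · intro s hs
    by_cases h : s ≤ n
    · exact ⟨s, 0, h, trivial, by omega, Or.inl rfl, rfl⟩
    · exact ⟨s - 2, 2, by omega, trivial, le_rfl, Or.inr rfl, by omega⟩

theorem inf_case {x : H} (hinj : Function.Injective fun i : ℕ => x ^ i) (n l : ℕ) (h2 : 2 ≤ l)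
    (hl : l ≤ 2 * n) : l ∈ Len (iv x (2 * n)) := by
  have hx : x ≠ 1 := fun h => by simpa using hinj (show x ^ 1 = x ^ 0 by simp [h])
  have hx2 : x ^ 2 ≠ 1 := fun h => by simpa using hinj (show x ^ 2 = x ^ 0 by simp [h])
  have base : ∀ m, 2 ∈ Len (iv x (2 * m + 1 + 1)) := by
    intro m
    have hI := pw_irr x (2 * m + 1) (fun i => i = 0 ∨ i % 2 = 1) (Or.inl rfl) (by omega)
      (by omega) (fun i j _ _ h => hinj h) (Or.inl ⟨by omega, by omega⟩)
    have := Len.mul (Len.one hI) (Len.one (pr_irr hx))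
    rw [← pow_one x, pr_eq, pow_one, pw_mul] at this
    · exact this
    · intro s hs
      by_cases h : s = 0 ∨ s % 2 = 1
      · exact ⟨s, 0, by omega, h, by omega, Or.inl rfl, rfl⟩
      · exact ⟨s - 1, 1, by omega, by omega, le_rfl, Or.inr rfl, by omega⟩
  rcases Nat.even_or_odd' l with ⟨s, rfl | rfl⟩
  · convert len_iv hx (base (n - s)) (2 * s - 2) using 3 <;> omega
  · have := len_iv hx (len_iv2 hx2 (by omega) (base (n - s - 1))) (2 * s - 2)
    rwa [show 2 + 1 + (2 * s - 2) = 2 * s + 1 by omega,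
      show 2 * (n - s - 1) + 1 + 1 + 2 + (2 * s - 2) = 2 * n by omega] at this

theorem odd_case {x : H} (m : ℕ) (hm : m % 2 = 1 ∨ 6 ≤ m)
    (hinj : ∀ i j, i ≤ 2 * m → j ≤ m → x ^ i = x ^ j → i = j) : 2 ∈ Len (iv x (m + m)) := by
  by_cases h1 : m % 2 = 1
  · have hA := pw_irr x m (fun i => i = 0 ∨ i % 2 = 1) (Or.inl rfl) (by omega)
      (by omega) hinj (Or.inl ⟨by omega, by omega⟩)
    have hB := pw_irr x m (fun i => i = m ∨ i % 2 = 0) (Or.inr rfl) (by omega)
      (by omega) hinj (Or.inr ⟨by omega, by omega⟩)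
    have := Len.mul (Len.one hA) (Len.one hB)
    rw [pw_mul] at this
    · exact this
    · intro s hs
      by_cases h : s % 2 = 0
      · by_cases h' : s ≤ m
        · exact ⟨0, s, by omega, by omega, by omega, by omega, by omega⟩
        · exact ⟨s - m, m, by omega, by omega, by omega, by omega, by omega⟩
      · by_cases h' : s ≤ m
        · exact ⟨s, 0, by omega, by omega, by omega, by omega, by omega⟩
        · exact ⟨m, s - m, by omega, by omega, by omega, by omega, by omega⟩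
  · have hA := pw_irr x m (fun i => i ≤ 1 ∨ (4 ≤ i ∧ i % 2 = 0)) (by omega) (by omega)
      (by omega) hinj (Or.inl ⟨by omega, by omega⟩)
    have hB := pw_irr x m (fun i => m ≤ i + 1 ∨ (i + 4 ≤ m ∧ i % 2 = 0)) (by omega) (by omega)
      (by omega) hinj (Or.inr ⟨by omega, by omega⟩)
    have := Len.mul (Len.one hA) (Len.one hB)
    rw [pw_mul] at this
    · exact this
    · intro s hs
      by_cases h : s % 2 = 0
      · by_cases h' : s ≤ 2
        · exact ⟨0, s, by omega, by omega, by omega, by omega, by omega⟩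
        by_cases h'' : s ≤ m
        · exact ⟨s, 0, by omega, by omega, by omega, by omega, by omega⟩
        by_cases h3 : s + 4 ≤ m + m
        · exact ⟨m, s - m, by omega, by omega, by omega, by omega, by omega⟩
        · exact ⟨s - m, m, by omega, by omega, by omega, by omega, by omega⟩
      · by_cases h' : s + 3 ≤ m
        · exact ⟨1, s - 1, by omega, by omega, by omega, by omega, by omega⟩
        by_cases h'' : s = m + 1
        · exact ⟨1, m, by omega, by omega, by omega, by omega, by omega⟩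
        · exact ⟨s + 1 - m, m - 1, by omega, by omega, by omega, by omega, by omega⟩

theorem iv_stab {x : H} {n : ℕ} (h : x ^ (n + 1) = 1) (t : ℕ) : iv x (n + t) = iv x n := by
  refine Subtype.ext (Set.ext fun g => ⟨?_, ?_⟩)
  · rintro ⟨i, -, -, rfl⟩
    exact ⟨i % (n + 1), Nat.lt_succ_iff.1 (Nat.mod_lt _ (by omega)), trivial, pow_eq_pow_mod i h⟩
  · rintro ⟨i, hi, -, rfl⟩
    exact ⟨i, by omega, trivial, rfl⟩

theorem good {X : PF H} {l : ℕ} (hl : l ≤ 3) (h : ∀ t, l + t ∈ Len X) {k : ℕ} (hk : l ≤ k)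
    (hk2 : 2 ≤ k) : (U (PF H) k).OrdConnected :=
  conn_of_three hk2 fun j hj => ⟨X, by convert h (k - l) using 1; omega,
    by convert h (j - l) using 1; omega⟩

end mon

section grp
variable {G : Type*} [Group G]

def E (x : G) (i : ZMod 5) : G := x ^ i.val

theorem E_add {x : G} (hx : orderOf x = 5) (i j : ZMod 5) : E x (i + j) = E x i * E x j := by
  unfold E; rw [← pow_add, ZMod.val_add]
  have := pow_mod_orderOf x (i.val + j.val)
  rwa [hx] at this

theorem E_inj {x : G} (hx : orderOf x = 5) {i j : ZMod 5} (h : E x i = E x j) : i = j :=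
  ZMod.val_injective 5 (pow_injOn_Iio_orderOf (by rw [hx]; exact i.val_lt)
    (by rw [hx]; exact j.val_lt) h)

theorem E_zero (x : G) : E x 0 = 1 := pow_zero x

theorem E_neg {x : G} (hx : orderOf x = 5) (i : ZMod 5) : E x (-i) = (E x i)⁻¹ :=
  eq_inv_of_mul_eq_one_left (by rw [← E_add hx, neg_add_cancel, E_zero])

def fs (x : G) (S : Finset (ZMod 5)) (h : 0 ∈ S) : PF G :=
  ⟨E x '' S, S.finite_toSet.image _, ⟨0, h, E_zero x⟩⟩

theorem fs_mul {x : G} (hx : orderOf x = 5) (S T : Finset (ZMod 5)) (h : 0 ∈ S) (h' : 0 ∈ T)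
    (h'' : 0 ∈ S + T) : fs x S h * fs x T h' = fs x (S + T) h'' := by
  refine Subtype.ext (Set.ext fun g => ⟨?_, ?_⟩)
  · rintro ⟨_, ⟨i, hi, rfl⟩, _, ⟨j, hj, rfl⟩, rfl⟩
    exact ⟨i + j, Finset.add_mem_add hi hj, E_add hx i j⟩
  · rintro ⟨s, hs, rfl⟩
    obtain ⟨i, hi, j, hj, rfl⟩ := Finset.mem_add.1 hs
    exact ⟨_, ⟨i, hi, rfl⟩, _, ⟨j, hj, rfl⟩, (E_add hx i j).symm⟩

theorem fs_inj {x : G} (hx : orderOf x = 5) {S T : Finset (ZMod 5)} {h : 0 ∈ S} {h' : 0 ∈ T}
    (e : fs x S h = fs x T h') : S = T :=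
  Finset.coe_injective (Set.image_injective.2 (fun _ _ => E_inj hx) (congrArg Subtype.val e))

theorem dec1 : ∀ S : Finset (ZMod 5), 0 ∈ S → (∃ a : ZMod 5, S = {0, a}) ∨
    ∃ a : ZMod 5, ∃ T : Finset (ZMod 5), 0 ∈ T ∧ S = {0, a} + T ∧ S ≠ {0, a} ∧ S ≠ T := by
  decide +kernel

theorem dec2 : ∀ a b c d : ZMod 5, a ≠ 0 → b ≠ 0 → c ≠ 0 → d ≠ 0 → ∀ z : ZMod 5,
    z ∈ ({0, a} + ({0, b} + ({0, c} + {0, d})) : Finset (ZMod 5)) := by
  decide +kernel

theorem dec3 : ∀ a b : ZMod 5, ∃ z : ZMod 5, z ∉ ({0, a} + {0, b} : Finset (ZMod 5)) := by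
  decide +kernel

theorem cyc5 {x : G} (hx : orderOf x = 5) (hall : ∀ g : G, ∃ i, g = E x i) :
    (U (PF G) 2).OrdConnected := by
  classical
  have hirr : ∀ A : PF G, Irr A → ∃ a, a ≠ 0 ∧ A = fs x {0, a} (by simp) := by
    intro A hA
    have h0 : 0 ∈ Finset.univ.filter fun i => E x i ∈ A.1 := by simp [E_zero, A.2.2]
    have hS : A = fs x _ h0 := by
      refine Subtype.ext (Set.ext fun g => ⟨fun hg => ?_, ?_⟩)
      · obtain ⟨i, rfl⟩ := hall g
        exact ⟨i, by simpa using hg, rfl⟩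
      · rintro ⟨i, hi, rfl⟩; simpa using hi
    generalize Finset.univ.filter (fun i => E x i ∈ A.1) = S at h0 hS
    rcases dec1 S h0 with ⟨a, rfl⟩ | ⟨a, T, hT, rfl, h1, h2⟩
    · refine ⟨a, ?_, hS⟩
      rintro rfl
      apply (irr_iff.1 hA).1
      rw [hS]; refine Subtype.ext ?_
      simp [fs, E_zero]; rfl
    · exfalso
      rcases (irr_iff.1 hA).2 _ _ (hS.trans (fs_mul hx _ _ (by simp) hT h0).symm) with h | h
      · exact h1 (fs_inj hx (h.trans hS)).symm
      · exact h2 (fs_inj hx (h.trans hS)).symm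
  have hle : ∀ m ∈ U (PF G) 2, m ≤ 3 := by
    rintro m ⟨X, ⟨l, hl, hX, hlen⟩, ⟨l', hl', hX', rfl⟩⟩
    by_contra hm
    obtain ⟨A, B, rfl⟩ := List.length_eq_two.1 hlen
    obtain ⟨a, -, rfl⟩ := hirr A (hl _ (by simp))
    obtain ⟨b, -, rfl⟩ := hirr B (hl _ (by simp))
    obtain ⟨z, hz⟩ := dec3 a b
    match l', hl', hX', hm with
    | [], _, _, hm => simp at hm
    | [_], _, _, hm => simp at hm
    | [_, _], _, _, hm => simp at hm
    | [_, _, _], _, _, hm => simp at hm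
    | A :: B :: C :: D :: l, hl', hX', _ =>
      obtain ⟨a', ha, rfl⟩ := hirr A (hl' _ (by simp))
      obtain ⟨b', hb, rfl⟩ := hirr B (hl' _ (by simp))
      obtain ⟨c', hc, rfl⟩ := hirr C (hl' _ (by simp))
      obtain ⟨d', hd, rfl⟩ := hirr D (hl' _ (by simp))
      have h1 : E x z ∈ X.1 := by
        rw [← hX', List.prod_cons, List.prod_cons, List.prod_cons, List.prod_cons,
          ← mul_assoc, ← mul_assoc, ← mul_assoc]
        apply sub_l
        rw [mul_assoc, mul_assoc, fs_mul hx _ _ _ _ 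
          (Finset.add_mem_add (a := 0) (b := 0) (by simp) (by simp)),
          fs_mul hx _ _ _ _ (Finset.add_mem_add (a := 0) (b := 0) (by simp)
            (Finset.add_mem_add (a := 0) (b := 0) (by simp) (by simp))),
          fs_mul hx _ _ _ _ (dec2 a' b' c' d' ha hb hc hd 0)]
        exact ⟨z, dec2 a' b' c' d' ha hb hc hd z, rfl⟩
      rw [← hX, List.prod_cons, List.prod_cons, List.prod_nil, mul_one,
        fs_mul hx _ _ _ _ (Finset.add_mem_add (a := 0) (b := 0) (by simp) (by simp))] at h1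
      obtain ⟨z', hz', he⟩ := h1
      exact hz (E_inj hx he ▸ hz')
  refine ⟨fun a ha b hb c hc => ?_⟩
  have := pos_of_mem (by omega) ha
  have := hle b hb
  have := hc.1
  have := hc.2
  by_cases h1 : c = a
  · exact h1 ▸ ha
  by_cases h2 : c = b
  · exact h2 ▸ hb
  obtain rfl : c = 2 := by omega
  obtain ⟨X, h, -⟩ := ha
  exact ⟨X, h, h⟩

def S (e : Bool) : Finset (ZMod 5) := if e then {0, 2, 4} else {0, 1, 2}

def AA (x y : G) : PF G :=
  ⟨Set.range (fun p : {p : Bool × ZMod 5 // p.2 ∈ S p.1} => (if p.1.1 then y else 1) * E x p.1.2),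
    Set.finite_range _, ⟨⟨(false, 0), by decide⟩, by simp [E_zero]⟩⟩

theorem mem_AA {x y g : G} : g ∈ (AA x y).1 ↔
    (∃ i ∈ S false, g = E x i) ∨ ∃ i ∈ S true, g = y * E x i := by
  constructor
  · rintro ⟨⟨⟨e, i⟩, h⟩, rfl⟩
    cases e
    · exact Or.inl ⟨i, h, by simp⟩
    · exact Or.inr ⟨i, h, by simp⟩
  · rintro (⟨i, h, rfl⟩ | ⟨i, h, rfl⟩)
    · exact ⟨⟨(false, i), h⟩, by simp⟩
    · exact ⟨⟨(true, i), h⟩, by simp⟩

theorem dec4 : ∀ c0 c1 d : Finset (ZMod 5), 0 ∈ c0 → 0 ∈ d → c0 + d = S false → c1 + d = S true →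
    d = {0} := by
  have h1 : ∀ c0 d : Finset (ZMod 5), 0 ∈ c0 → 0 ∈ d → c0 + d = S false →
      d = {0} ∨ d = {0, 1} ∨ d = {0, 1, 2} := by decide +kernel
  have h2 : ∀ c1 : Finset (ZMod 5), c1 + {0, 1} ≠ S true ∧ c1 + {0, 1, 2} ≠ S true := by
    decide +kernel
  intro c0 c1 d a b c e
  rcases h1 c0 d a b c with h | rfl | rfl
  exacts [h, absurd e (h2 c1).1, absurd e (h2 c1).2]

theorem AA_aux {x y : G} (hx : orderOf x = 5) (hy : ∀ i, y ≠ E x i) (C D : PF G)
    (h : AA x y = C * D) (hD : ∀ g ∈ D.1, ∃ i, g = E x i) : D = 1 := by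
  classical
  have hne : ∀ i j, y * E x i ≠ E x j := fun i j h => hy (j + -i) (by
    rw [E_add hx, E_neg hx, ← h]; simp)
  have key : ∀ (e : Bool) (z : G), z = (if e then y else 1) →
      (Finset.univ.filter fun i => z * E x i ∈ C.1) + (Finset.univ.filter fun i => E x i ∈ D.1)
        = S e := by
    intro e z hz
    ext s
    simp only [Finset.mem_add, Finset.mem_filter, Finset.mem_univ, true_and]
    constructor
    · rintro ⟨i, hi, j, hj, rfl⟩
      have : z * E x (i + j) ∈ (AA x y).1 := by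
        rw [h]; exact ⟨_, hi, _, hj, by simp [E_add hx, mul_assoc]⟩
      cases e <;> simp only [Bool.false_eq_true, if_false, if_true] at hz <;> subst hz <;>
        rcases mem_AA.1 this with ⟨t, ht, he⟩ | ⟨t, ht, he⟩
      · rw [one_mul] at he; exact E_inj hx he ▸ ht
      · rw [one_mul] at he; exact absurd he.symm (hne _ _)
      · exact absurd he (hne _ _)
      · exact E_inj hx (mul_left_cancel he) ▸ ht
    · intro hs
      have : z * E x s ∈ (C * D).1 := by
        rw [← h, hz]; exact ⟨⟨(e, s), hs⟩, rfl⟩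
      obtain ⟨c, hc, d, hd, he⟩ := this
      obtain ⟨j, rfl⟩ := hD d hd
      refine ⟨s + -j, ?_, j, hd, by ring⟩
      have : z * E x (s + -j) = c := by
        rw [E_add hx, E_neg hx, ← mul_assoc, ← he]; simp
      rw [this]; exact hc
  have := dec4 _ _ _ (by simp [E_zero, C.2.2]) (by simp [E_zero, D.2.2]) (key false 1 rfl)
    (key true y rfl)
  refine Subtype.ext (Set.Subset.antisymm (fun g hg => ?_) (one_sub D))
  obtain ⟨j, rfl⟩ := hD g hg
  have hj : j ∈ Finset.univ.filter fun i => E x i ∈ D.1 := by simpa using hg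
  rw [this, Finset.mem_singleton] at hj
  rw [hj, E_zero]; exact Set.one_mem_one

theorem AA_irr {x y : G} (hx : orderOf x = 5) (hy : ∀ i, y ≠ E x i) (h5 : ∀ g : G, g ^ 5 = 1) :
    Irr (AA x y) := by
  have hne : ∀ i j, y * E x i ≠ E x j := fun i j h => hy (j + -i) (by
    rw [E_add hx, E_neg hx, ← h]; simp)
  have hne' : ∀ i j, E x i * y ≠ E x j := fun i j h => hy (-i + j) (by
    rw [E_add hx, E_neg hx, ← h]; simp)
  refine irr_iff.2 ⟨fun h => ?_, fun C D h => ?_⟩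
  · have : y * E x 0 ∈ (AA x y).1 := mem_AA.2 (Or.inr ⟨0, by decide, rfl⟩)
    rw [h] at this
    exact hne 0 0 ((Set.mem_one.1 this).trans (E_zero x).symm)
  by_cases hD : ∀ g ∈ D.1, ∃ i, g = E x i
  · left; rw [h, AA_aux hx hy C D h hD, mul_one]
  push Not at hD
  obtain ⟨d, hd, hd'⟩ := hD
  obtain ⟨a, rfl⟩ : ∃ a, d = y * E x a := by
    rcases mem_AA.1 ((h ▸ sub_r C D :) hd) with ⟨t, -, he⟩ | ⟨t, -, he⟩
    exacts [absurd he (hd' t), ⟨t, he⟩]
  have hprod : ∀ c ∈ C.1, c * (y * E x a) ∈ (AA x y).1 := fun c hc => by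
    rw [h]; exact ⟨c, hc, _, hd, rfl⟩
  have hC : ∀ g ∈ C.1, ∃ i, g = E x i := by
    intro c hc
    rcases mem_AA.1 ((h ▸ sub_l C D :) hc) with ⟨t, -, he⟩ | ⟨b, -, rfl⟩
    · exact ⟨t, he⟩
    exfalso
    rcases mem_AA.1 (hprod _ hc) with ⟨t, -, he⟩ | ⟨t, -, he⟩
    · have h2 : (y * E x b) ^ 2 = E x (t + -a + b) := by
        rw [E_add hx, E_add hx, E_neg hx, ← he, pow_two]; group
      have h3 : y * E x b = ((y * E x b) ^ 2) ^ 3 := by
        rw [← pow_mul, show 2 * 3 = 5 + 1 from rfl, pow_succ, h5, one_mul]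
      rw [h2, pow_three, ← E_add hx, ← E_add hx] at h3
      exact hne _ _ h3
    · refine hne' b (t + -a) ?_
      rw [E_add hx, E_neg hx]
      rw [mul_assoc] at he
      rw [← mul_left_cancel he]; group
  by_cases hC1 : C = 1
  · right; rw [h, hC1, one_mul]
  have hcomm : Commute x y := by
    obtain ⟨c, hc, hc1⟩ : ∃ c ∈ C.1, c ≠ 1 := by
      by_contra hc; push Not at hc
      exact hC1 (Subtype.ext (Set.Subset.antisymm (fun g hg => Set.mem_one.2 (hc g hg)) (one_sub C)))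
    obtain ⟨b, rfl⟩ := hC c hc
    have hb : b ≠ 0 := by rintro rfl; exact hc1 (E_zero x)
    rcases mem_AA.1 (hprod _ hc) with ⟨t, -, he⟩ | ⟨t, -, he⟩
    · exact absurd (show E x b * y = E x (t + -a) by
        rw [E_add hx, E_neg hx, ← he]; group) (hne' _ _)
    have h1 : SemiconjBy y (E x (t + -a)) (E x b) := by
      unfold SemiconjBy; rw [E_add hx, E_neg hx, ← mul_assoc, ← he]; group
    generalize t + -a = e at h1
    have hm : ∀ (i : ZMod 5) (n : ℕ), E x i ^ n = E x (i * n) := by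
      intro i n; induction n with
      | zero => simp [E_zero]
      | succ n ih => rw [pow_succ, ih, ← E_add hx]; congr 1; push_cast; ring
    obtain ⟨s, hs⟩ : ∃ s : ZMod 5, ∀ i, SemiconjBy y (E x (i * s)) (E x i) := by
      have : Fact (Nat.Prime 5) := ⟨by norm_num⟩
      refine ⟨e / b, fun i => ?_⟩
      have := h1.pow_right (i / b).val
      rw [hm, hm, ZMod.natCast_zmod_val] at this
      convert this using 2 <;> field_simp
    have h2 : ∀ n : ℕ, SemiconjBy (y ^ n) (E x (s ^ n)) (E x 1) := by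
      intro n; induction n with
      | zero => simp
      | succ n ih => rw [pow_succ, pow_succ]; exact ih.mul_left (hs _)
    have h3 := (h2 5).eq
    rw [h5, one_mul, mul_one] at h3
    have h4 : s = 1 := by
      have hd : ∀ s : ZMod 5, s ^ 5 = 1 → s = 1 := by decide
      exact hd s (E_inj hx h3)
    have := hs 1
    rw [h4, one_mul, show E x 1 = x from pow_one x] at this
    exact (show Commute y x from this).symm
  have hcE : ∀ i, ∀ g ∈ (AA x y).1, Commute (E x i) g := by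
    intro i g hg
    rcases mem_AA.1 hg with ⟨t, -, rfl⟩ | ⟨t, -, rfl⟩
    · exact (Commute.refl x).pow_pow _ _
    · exact (hcomm.pow_left _).mul_right ((Commute.refl x).pow_pow _ _)
  refine absurd (AA_aux hx hy D C ?_ hC) hC1
  rw [h]
  refine Subtype.ext (Set.ext fun g => ⟨?_, ?_⟩)
  · rintro ⟨c, hc, d, hd, rfl⟩
    obtain ⟨i, rfl⟩ := hC c hc
    exact ⟨d, hd, _, hc, (hcE i d ((h ▸ sub_r C D :) hd)).eq.symm⟩
  · rintro ⟨d, hd, c, hc, rfl⟩
    obtain ⟨i, rfl⟩ := hC c hc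
    exact ⟨_, hc, d, hd, (hcE i d ((h ▸ sub_r C D :) hd)).eq⟩

def iP (X : PF G) : PF G := ⟨X.1⁻¹, X.2.1.inv, by simpa using X.2.2⟩

theorem iP_iP (X : PF G) : iP (iP X) = X := Subtype.ext (inv_inv _)

theorem iP_irr {X : PF G} (h : Irr X) : Irr (iP X) := by
  rw [irr_iff] at h ⊢
  refine ⟨fun e => h.1 ?_, fun B C e => ?_⟩
  · rw [← iP_iP X, e]; exact Subtype.ext inv_one
  · have : X = iP C * iP B := by
      rw [← iP_iP X, e]; exact Subtype.ext (mul_inv_rev _ _)
    rcases h.2 _ _ this with h' | h'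
    · right; rw [← h', iP_iP]
    · left; rw [← h', iP_iP]

theorem dec5 : ∀ (e f : Bool) (z : ZMod 5), ∃ a ∈ S e, ∃ b ∈ S f, z = a + -b := by decide

theorem AA_len {x y : G} (hx : orderOf x = 5) (hy : ∀ i, y ≠ E x i) (h5 : ∀ g : G, g ^ 5 = 1)
    (t : ℕ) : 2 + t ∈ Len (AA x y * iP (AA x y)) := by
  have hx1 : x ≠ 1 := by rintro rfl; simp at hx
  have h := Len.mul (Len.mul (Len.one (AA_irr hx hy h5)) (Len.pow (pr_irr hx1) t))
    (Len.one (iP_irr (AA_irr hx hy h5)))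
  have hp : ∀ t : ℕ, ∀ g ∈ (pr x ^ t).1, ∃ i, g = E x i := by
    intro t; induction t with
    | zero => intro g hg; exact ⟨0, (Set.mem_one.1 hg).trans (E_zero x).symm⟩
    | succ t ih =>
      rw [pow_succ]
      rintro _ ⟨a, ha, b, rfl | rfl, rfl⟩
      · simpa using ih a ha
      · obtain ⟨i, rfl⟩ := ih a ha
        exact ⟨i + 1, by rw [E_add hx, show E b 1 = b from pow_one b]⟩
  have e : AA x y * pr x ^ t * iP (AA x y) = AA x y * iP (AA x y) := by
    refine Subtype.ext (Set.ext fun g => ⟨?_, ?_⟩)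
    · rintro ⟨_, ⟨_, ⟨⟨⟨e, i⟩, hi⟩, rfl⟩, k, hk, rfl⟩, b, ⟨⟨⟨f, j⟩, hj⟩, hb⟩, rfl⟩
      obtain ⟨k, rfl⟩ := hp t k hk
      obtain ⟨a', ha', b', hb', he⟩ := dec5 e f (i + k + -j)
      refine ⟨_, ⟨⟨(e, a'), ha'⟩, rfl⟩, ((if f then y else 1) * E x b')⁻¹,
        ⟨⟨(f, b'), hb'⟩, by simp⟩, ?_⟩
      have h1 := congrArg (E x) he
      rw [E_add hx, E_add hx, E_add hx, E_neg hx, E_neg hx] at h1
      have h2 : b = ((if f then y else 1) * E x j)⁻¹ := by
        have hb : (if f then y else 1) * E x j = b⁻¹ := hb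
        rw [hb, inv_inv]
      simp only [h2, mul_inv_rev]
      rw [mul_assoc, ← mul_assoc (E x a'), ← h1]; group
    · rintro ⟨a, ha, b, hb, rfl⟩
      exact ⟨a, sub_l _ _ ha, b, hb, rfl⟩
  rw [e] at h
  convert h using 1; ring

theorem grp_case (hfin : ∀ g : G, IsOfFinOrder g) (h2 : ∀ g : G, g * g = 1 → g = 1)
    {x : G} (hx1 : x ≠ 1) {k : ℕ} (hk : 2 ≤ k) : (U (PF G) k).OrdConnected := by
  have hodd : ∀ g : G, orderOf g % 2 = 1 := by
    intro g
    by_contra h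
    have hpos := (hfin g).orderOf_pos
    refine pow_ne_one_of_lt_orderOf (x := g) (n := orderOf g / 2) (by omega) (by omega) (h2 _ ?_)
    rw [← pow_add, show orderOf g / 2 + orderOf g / 2 = orderOf g by omega, pow_orderOf_eq_one]
  have main : ∀ (g : G) (m : ℕ), orderOf g = m + m + 1 → (m % 2 = 1 ∨ 6 ≤ m) →
      (U (PF G) k).OrdConnected := by
    intro g m hg hm
    have hg1 : g ≠ 1 := by rintro rfl; simp at hg; omega
    have := odd_case (x := g) m hm fun i j hi hj h =>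
      pow_injOn_Iio_orderOf (by simp only [Set.mem_Iio]; omega) (by simp only [Set.mem_Iio]; omega) h
    refine good (X := iv g (m + m)) (l := 2) (by omega) (fun t => ?_) hk hk
    rw [← iv_stab (by rw [← hg, pow_orderOf_eq_one]) t]
    exact len_iv hg1 this t
  by_cases h : ∃ g : G, orderOf g ≠ 1 ∧ orderOf g ≠ 5
  · obtain ⟨g, h1, h5⟩ := h
    have := hodd g
    by_cases h9 : orderOf g = 9
    · exact main (g ^ 3) 1 (by rw [orderOf_pow_of_dvd (by omega) (by omega), h9]) (by omega)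
    · exact main g (orderOf g / 2) (by omega) (by omega)
  push Not at h
  have hx : orderOf x = 5 := h x (by simpa using hx1)
  have h5 : ∀ g : G, g ^ 5 = 1 := fun g => by
    by_cases hg : orderOf g = 1
    · rw [orderOf_eq_one_iff.1 hg, one_pow]
    · rw [← h g hg, pow_orderOf_eq_one]
  by_cases hy : ∃ y : G, ∀ i, y ≠ E x i
  · obtain ⟨y, hy⟩ := hy
    exact good (by omega) (AA_len hx hy h5) hk hk
  push Not at hy
  by_cases hk2 : k = 2
  · exact hk2 ▸ cyc5 hx hy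
  have hx2 : x ^ 2 ≠ 1 := pow_ne_one_of_lt_orderOf (by omega) (by omega)
  have h0 : 0 ∈ Len (iv x 0) := ⟨[], by simp, Subtype.ext (Set.ext fun g =>
    ⟨fun hg => ⟨0, le_rfl, trivial, (Set.mem_one.1 hg).trans (pow_zero x).symm⟩,
      fun ⟨i, hi, _, hg⟩ => Set.mem_one.2 (by rw [hg, Nat.le_zero.1 hi, pow_zero])⟩), rfl⟩
  have h3 := len_iv2 hx2 (by omega) (len_iv hx1 h0 2)
  refine good (X := iv x 4) (l := 3) le_rfl (fun t => ?_) (by omega) hk
  rw [← iv_stab (h5 x) t]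
  exact len_iv hx1 h3 t

end grp

theorem result (H : Type*) [Monoid H] (k : ℕ) (hk : 1 ≤ k) : (U (PF H) k).OrdConnected := by
  by_cases hk1 : k = 1
  · exact hk1 ▸ conn_one
  have hk2 : 2 ≤ k := by omega
  by_cases h0 : ∃ x : H, x ≠ 1
  swap
  · push Not at h0
    refine ⟨fun a ha => ?_⟩
    obtain ⟨X, ⟨l, hl, -, rfl⟩, -⟩ := ha
    cases l with
    | nil => simp at hk
    | cons A l =>
      exact absurd (Subtype.ext (Set.Subset.antisymm (fun g _ => Set.mem_one.2 (h0 g)) (one_sub A)))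
        (irr_iff.1 (hl A (by simp))).1
  obtain ⟨x, hx⟩ := h0
  by_cases h1 : ∃ e : H, e ≠ 1 ∧ (e * e = e ∨ e * e = 1)
  · obtain ⟨e, he, h⟩ := h1
    have hpp : pr e * pr e = pr e := by
      refine Subtype.ext (Set.Subset.antisymm ?_ (sub_l _ _))
      rintro _ ⟨a, rfl | rfl, b, hb, rfl⟩
      · simpa using hb
      · rcases hb with rfl | rfl
        · exact Or.inr (mul_one _)
        · exact h.symm
    refine good (X := pr e) (l := 1) (by omega) (fun t => ?_) hk hk2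
    induction t with
    | zero => exact Len.one (pr_irr he)
    | succ t ih =>
      have := Len.mul ih (Len.one (pr_irr he))
      rwa [hpp] at this
  push Not at h1
  by_cases h2 : ∃ x : H, Function.Injective fun i : ℕ => x ^ i
  · obtain ⟨y, hy⟩ := h2
    exact conn_of_three hk2 fun j hj => ⟨iv y (2 * (j + k)), inf_case hy _ _ hk2 (by omega),
      inf_case hy _ _ (by omega) (by omega)⟩
  have hfin : ∀ g : H, IsOfFinOrder g := by
    intro g
    have : ∃ a p : ℕ, 0 < p ∧ g ^ (a + p) = g ^ a := by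
      by_contra hc
      push Not at hc
      refine h2 ⟨g, fun i j hij => ?_⟩
      by_contra hne
      rcases Nat.lt_or_gt_of_ne hne with h | h
      · exact hc i (j - i) (by omega) (by rw [show i + (j - i) = j by omega]; exact hij.symm)
      · exact hc j (i - j) (by omega) (by rw [show j + (i - j) = i by omega]; exact hij)
    obtain ⟨a, p, hp, hap⟩ := this
    have h3 : ∀ t, g ^ (a + t * p) = g ^ a := by
      intro t; induction t with
      | zero => simp
      | succ t ih => rw [show a + (t + 1) * p = a + p + t * p by ring, pow_add, hap, ← pow_add, ih]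
    have hle : a ≤ (a + 1) * p := by nlinarith
    have h4 : g ^ ((a + 1) * p) * g ^ ((a + 1) * p) = g ^ ((a + 1) * p) := by
      obtain ⟨c, hc⟩ := Nat.exists_eq_add_of_le hle
      rw [← pow_add]
      calc g ^ ((a + 1) * p + (a + 1) * p) = g ^ (a + (a + 1) * p) * g ^ c := by
            rw [← pow_add]; congr 1; omega
        _ = _ := by rw [h3, ← pow_add, ← hc]
    refine isOfFinOrder_iff_pow_eq_one.2 ⟨(a + 1) * p, by positivity, ?_⟩
    by_contra hne
    exact (h1 _ hne).1 h4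
  let _ : Group H := IsMulTorsion.group hfin
  exact grp_case hfin (fun g hg => by by_contra hne; exact (h1 g hne).2 hg) hx hk2

end Pool.Agent.Results.MP_43520b_al.Interval
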